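import Pool.Agent.X35.GM.Vec

/-!
# Lenstra's condition at `s` consecutive primes for the groups `⟨f_1(n), ..., f_r(n)⟩`, for ALL integers `n` near `α v_i` and all
polynomials at once, outside a set of `α` of small dimension
-/

set_option autoImplicit false

namespace Pool.Agent.Results.MP_48b1c3_nt.AllIntegersNearSequences

open Finset Polynomial

/-- The prime `q` is in the set `P`, all the numbers `w_l` are units at `q`, and the index in `(ℤ/qℤ)ˣ` of the image of the group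
generated by the `w_l` divides `k`. (For `P` the set of the primes with Frobenius class in `C` this says `q ∈ 𝒮(F, C, W, k)`,
`W = ⟨w_1, ..., w_r⟩`.) -/
def Lenstra {r : ℕ} (P : Set ℕ) (w : Fin r → ℤ) (k q : ℕ) : Prop :=
  q ∈ P ∧ (∀ l, ¬ (q : ℤ) ∣ w l) ∧
    (Subgroup.closure {u : (ZMod q)ˣ | ∃ l, (u : ZMod q) = ((w l : ℤ) : ZMod q)}).index ∣ k

open Classical in
/-- The number of the `j < J` such that for all `i < s` the prime with the number `j + i` (the primes are numbered from `0`) satisfies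
the condition `Lenstra` with the set `P i` and the number `k i`. -/
noncomputable def count {s r : ℕ} (P : Fin s → Set ℕ) (k : Fin s → ℕ) (w : Fin r → ℤ) (J : ℕ) : ℕ :=
  ((range J).filter (fun j => ∀ i : Fin s, Lenstra (P i) w (k i) (Nat.nth Nat.Prime (j + i)))).card

open Classical in
/-- The proportion of the residues `u` modulo `q` such that `f_1(u), ..., f_r(u)` satisfy the condition at `q`. -/
noncomputable def proportion {r : ℕ} (P : Set ℕ) (f : Fin r → ℤ[X]) (k q : ℕ) : ℝ :=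
  ((range q).filter (fun u : ℕ => Lenstra P (fun l => (f l).eval (u : ℤ)) k q)).card / q

/-- The expected number: the sum over `j < J` of the product of the proportions at the `s` primes. -/
noncomputable def expected {s r : ℕ} (P : Fin s → Set ℕ) (k : Fin s → ℕ) (f : Fin r → ℤ[X]) (J : ℕ) : ℝ :=
  ∑ j ∈ range J, ∏ i : Fin s, proportion (P i) f (k i) (Nat.nth Nat.Prime (j + i))

theorem lenstra_congr {r : ℕ} (P : Set ℕ) (w w' : Fin r → ℤ) (k q : ℕ) (h : ∀ l, (q : ℤ) ∣ w l - w' l) :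
    Lenstra P w k q ↔ Lenstra P w' k q := by
  have e : ∀ l, ((w l : ℤ) : ZMod q) = ((w' l : ℤ) : ZMod q) := by
    intro l
    rw [← sub_eq_zero, ← Int.cast_sub]
    exact (ZMod.intCast_zmod_eq_zero_iff_dvd _ q).2 (h l)
  unfold Lenstra
  simp only [e, fun l => dvd_iff_dvd_of_dvd_sub (h l)]

open Classical in
/-- the indicators -/
noncomputable def st {s : ℕ} (P : ℕ → Set ℕ) (c : (Σ r : ℕ, (Fin r → ℤ[X])) × (Fin s → ℕ × ℕ)) (q n : ℕ) : Fin s → ℝ := fun j =>
  if Lenstra (P (c.2 j).1) (fun l => (c.1.2 l).eval (n : ℤ)) (c.2 j).2 q then 1 else 0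

theorem st_per {s : ℕ} (P : ℕ → Set ℕ) (c : (Σ r : ℕ, (Fin r → ℤ[X])) × (Fin s → ℕ × ℕ)) (q n : ℕ) :
    st P c q (n + q) = st P c q n := by
  have e : ((n + q : ℕ) : ℤ) - (n : ℤ) = q := by push_cast; ring
  have hd : ∀ f : ℤ[X], (q : ℤ) ∣ f.eval ((n + q : ℕ) : ℤ) - f.eval (n : ℤ) := by
    intro f
    have := f.sub_dvd_eval_sub ((n + q : ℕ) : ℤ) (n : ℤ)
    rwa [e] at this
  funext j
  have h := lenstra_congr (P (c.2 j).1) (fun l => (c.1.2 l).eval ((n + q : ℕ) : ℤ)) (fun l => (c.1.2 l).eval (n : ℤ)) (c.2 j).2 q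
    (fun l => hd _)
  unfold st
  by_cases h1 : Lenstra (P (c.2 j).1) (fun l => (c.1.2 l).eval (n : ℤ)) (c.2 j).2 q
  · rw [if_pos h1, if_pos (h.2 h1)]
  · rw [if_neg h1, if_neg (fun h2 => h1 (h.1 h2))]

/-- the box -/
def bx {s : ℕ} (i j : Fin s) : Set ℝ := if i = j then {1} else Set.univ

theorem bx_ord {s : ℕ} (i j : Fin s) : (bx i j).OrdConnected := by
  unfold bx
  split_ifs
  · exact Set.ordConnected_singleton
  · exact Set.ordConnected_univ

theorem st_iff {s : ℕ} (P : ℕ → Set ℕ) (c : (Σ r : ℕ, (Fin r → ℤ[X])) × (Fin s → ℕ × ℕ)) (q n : ℕ) (i : Fin s) :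
    (∀ j, st P c q n j ∈ bx i j) ↔ Lenstra (P (c.2 i).1) (fun l => (c.1.2 l).eval (n : ℤ)) (c.2 i).2 q := by
  unfold st bx
  constructor
  · intro h
    have h1 := h i
    rw [if_pos rfl] at h1
    by_contra hcon
    rw [if_neg hcon] at h1
    simp at h1
  · intro h j
    by_cases hij : i = j
    · subst hij
      rw [if_pos rfl, if_pos h]
      rfl
    · rw [if_neg hij]
      exact Set.mem_univ _

/-- Let `s ≥ 1` and `δ > 0`. There are `κ > 0` and `C` such that for all reals `v_i ≥ 1` with `∑ v_i ^ (-u) < ∞` for all `u > τ`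
(`τ ≥ 0`; for example `v_i = 2 ^ i`, `τ = 0`), all `θ < 1` and every sequence `P_0, P_1, ...` of sets of primes (for example all sets of
primes with Frobenius class in `C`, for all `F` and `C`) there is a set `E` of reals of Hausdorff dimension at most
`(1 - κ + τ) / (1 - θ)` with the following property. For every real `α > 0` outside `E`, ALL `r` and polynomials `f_1, ..., f_r ∈ ℤ[T]`,
all sets `Q_0, ..., Q_(s - 1)` of the sequence, all `k_0, ..., k_(s - 1)`, all `i ≥ i₀`, ALL integers `n` with `|n - α v_i| ≤ v_i ^ θ` and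
all `J ≤ n ^ κ`: the number of the `j < J` such that for all `m < s` the prime `q` with the number `j + m` is in `Q_m`, the
numbers `f_l(n)` are units modulo `q` and they generate a subgroup of `(ℤ/qℤ)ˣ` whose index divides `k_m`, differs from
its expected value by at most `C J ^ (1 / 2 + δ) (1 + log n) ^ (1 / 2)`. -/
theorem result (s : ℕ) (hs : 1 ≤ s) (δ : ℝ) (hδ : 0 < δ) :
    ∃ κ C : ℝ, 0 < κ ∧ 0 < C ∧ ∀ (v : ℕ → ℝ) (τ θ : ℝ), (∀ i, 1 ≤ v i) → 0 ≤ τ → θ < 1 →
      (∀ u : ℝ, τ < u → Summable (fun i => v i ^ (-u))) → ∀ P : ℕ → Set ℕ,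
      ∃ E : Set ℝ, dimH E ≤ ENNReal.ofReal ((1 - κ + τ) / (1 - θ)) ∧
        ∀ α : ℝ, 0 < α → α ∉ E → ∀ (r : ℕ) (f : Fin r → ℤ[X]) (Q : Fin s → Set ℕ) (k : Fin s → ℕ),
          (∀ m, Q m ∈ Set.range P) → ∃ i₀ : ℕ, ∀ i : ℕ, i₀ ≤ i →
          ∀ n : ℕ, |(n : ℝ) - α * v i| ≤ v i ^ θ → ∀ J : ℕ, (J : ℝ) ≤ (n : ℝ) ^ κ →
            |(count Q k (fun l => (f l).eval (n : ℤ)) J : ℝ) - expected Q k f J| ≤
              C * ((J : ℝ) ^ (1 / 2 + δ) * √(1 + Real.log n)) := by
  classical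
  obtain ⟨κ, C, h1, _, h3, H⟩ := Pool.Agent.X35.GM.vecB s s hs δ hδ
  refine ⟨κ, C, h1, by linarith, ?_⟩
  intro v τ θ hv1 hτ hθ hv P
  have hc : Countable ℤ[X] := Pool.Agent.X35.GM.countable_int_poly
  obtain ⟨E, hE1, hE2⟩ := H (fun c : (Σ r : ℕ, (Fin r → ℤ[X])) × (Fin s → ℕ × ℕ) => st P c) (st_per P) v τ θ hv1 hτ hθ hv
  refine ⟨E, hE1, fun α hα hαE r f Q k hQ => ?_⟩
  choose g hg using hQ
  obtain ⟨i₀, hi₀⟩ := hE2 α hα hαE (⟨r, f⟩, fun m => (g m, k m))
  refine ⟨i₀, fun i hi n hn K hK => ?_⟩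
  have h := hi₀ i hi n hn K hK bx bx_ord
  have e1 : Pool.Agent.X35.GM.cnt (fun p => st P (⟨r, f⟩, fun m => (g m, k m)) p n) bx K =
      count Q k (fun l => (f l).eval (n : ℤ)) K := by
    unfold Pool.Agent.X35.GM.cnt count
    congr 1
    ext j
    simp only [mem_filter]
    refine and_congr_right fun _ => forall_congr' fun i => ?_
    rw [st_iff P (⟨r, f⟩, fun m => (g m, k m)) _ n i]
    show Lenstra (P (g i)) _ _ _ ↔ _
    rw [hg]
  have e2 : Pool.Agent.X35.GM.mdl (st P (⟨r, f⟩, fun m => (g m, k m))) bx K = expected Q k f K := by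
    unfold Pool.Agent.X35.GM.mdl expected proportion Pool.Agent.X35.GM.prp
    refine sum_congr rfl fun j _ => prod_congr rfl fun i _ => ?_
    congr 3
    ext u
    simp only [mem_filter]
    refine and_congr_right fun _ => ?_
    rw [st_iff P (⟨r, f⟩, fun m => (g m, k m)) _ u i]
    show Lenstra (P (g i)) _ _ _ ↔ _
    rw [hg]
  rw [e1, e2] at h
  exact h

end Pool.Agent.Results.MP_48b1c3_nt.AllIntegersNearSequences
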