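import Mathlib
import Pool.Agent.Y855.A19

set_option autoImplicit false

/-! # Lenstra's problem in cosets: primes `3 mod 4` with index dividing two, and bases `2 n²`

Let `T x z` be the set of the primes `p ≤ x` such that `p - 1` has no odd prime factor `≤ z`, and let
`T3 x z` be the set of those which are `3` modulo `4` (Frobenius equal to the complex conjugation in
`F = ℚ(i)`).

Let `a_1, …, a_r` be multiplicatively independent integers and `b ≠ 0` an integer, all of absolute value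
at most `(log x) ^ B`, with `r` fixed, and let `n_v = b a_1^(v_1) ⋯ a_r^(v_r)`, `v ∈ V`, where the set
`V` of exponent vectors is thin: it has at most `h` elements on every affine hyperplane modulo every
prime `l > z`.  For `ε > 0` there is `K` such that for large `x` and all `z` with
`x ^ (2 / r) ≤ z ≤ x ^ (1 / K)`, up to `K h log x / log z` exceptions `v ∈ V`,

* the subgroup `W = ⟨n_v⟩` has index dividing `k = 2` modulo all but a proportion `ε` of the primes
  `p ∈ T3 x z`, i.e. `⟨-1, n_v⟩` is everything modulo those primes;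
* the relative density in `T x z` of the primes for which `2 n_v²` is a primitive root is `1 / 2` up
  to an error `ε`.

The sets `T x z`, `T3 x z` have at least `x / (K log x log z)` elements. -/

namespace Pool.Agent.Results.MP_48b1c3_nt.CosetsIndexTwo

open Finset Classical

/-- the primes `p ≤ x` such that every odd prime factor of `p - 1` exceeds `z` -/
noncomputable def T (x z : ℕ) : Finset ℕ :=
  (Finset.range (x + 1)).filter (fun p : ℕ => p.Prime ∧ ∀ q : ℕ, q.Prime → q ∣ p - 1 → q = 2 ∨ z < q)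

/-- those which are `3` modulo `4` -/
noncomputable def T3 (x z : ℕ) : Finset ℕ := (T x z).filter (fun p : ℕ => p % 4 = 3)

/-- the number of the primes `p ∈ T x z` for which `n` is a primitive root modulo `p` -/
noncomputable def P (n : ℤ) (x z : ℕ) : ℕ :=
  ((T x z).filter (fun p : ℕ => orderOf (n : ZMod p) = p - 1)).card

/-- the number of the primes `p ∈ T3 x z` not dividing `n` for which `⟨-1, n⟩` is the whole of the
multiplicative group modulo `p` and the index of `⟨n⟩` divides `2` -/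
noncomputable def Q (n : ℤ) (x z : ℕ) : ℕ :=
  ((T3 x z).filter (fun p : ℕ => ∃ u : (ZMod p)ˣ, (u : ZMod p) = (n : ZMod p) ∧
    (Subgroup.zpowers u).index ∣ 2 ∧ Subgroup.closure {-1, u} = ⊤)).card

/-- multiplicative independence -/
def Independent {r : ℕ} (a : Fin r → ℤ) : Prop :=
  ∀ c : Fin r → ℤ, ∏ i, (a i : ℚ) ^ (c i) = 1 → ∀ i, c i = 0

/-- the element `b ∏ a_i ^ v_i` of the coset of `b` -/
def elt {r : ℕ} (a : Fin r → ℤ) (b : ℤ) (v : Fin r → ℕ) : ℤ := b * ∏ i, a i ^ v i

/-- every affine hyperplane modulo every prime `l > z` contains at most `h` elements of `V` -/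
def Thin {r : ℕ} (V : Finset (Fin r → ℕ)) (z h : ℕ) : Prop :=
  ∀ l : ℕ, l.Prime → z < l → ∀ u : Fin r → ZMod l, u ≠ 0 → ∀ c : ZMod l,
    (V.filter (fun v => ∑ i, u i * (v i : ZMod l) = c)).card ≤ h

/-- the points `(t, t², …, t^r)`, `0 ≤ t < N` -/
def curve (r N : ℕ) : Finset (Fin r → ℕ) :=
  (Finset.range N).image (fun t i => t ^ ((i : ℕ) + 1))

/-- the vectors with entries `< N` -/
def box (r N : ℕ) : Finset (Fin r → ℕ) := Fintype.piFinset (fun _ => Finset.range N)

theorem T_eq (x z : ℕ) : T x z = Pool.Agent.Y855.TT x z := by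
  unfold T Pool.Agent.Y855.TT
  ext p
  rw [mem_filter, mem_filter, mem_range, mem_Icc]
  constructor
  · rintro ⟨h1, h2, h3⟩
    refine ⟨⟨h2.pos, by omega⟩, h2, fun q hq hqp => ?_⟩
    rw [Pool.Agent.Y855.mem_OP] at hq
    rcases h3 q hq.1 hqp with h | h <;> omega
  · rintro ⟨h1, h2, h3⟩
    refine ⟨by omega, h2, fun q hq hqp => ?_⟩
    by_contra hcon
    push Not at hcon
    refine h3 q (Pool.Agent.Y855.mem_OP.2 ⟨hq, ?_, hcon.2⟩) hqp
    have := hq.two_le
    omega

theorem T3_eq (x z : ℕ) : T3 x z = Pool.Agent.Y855.T3 x z := by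
  unfold T3 Pool.Agent.Y855.T3
  rw [T_eq]

/-- for `p ≡ 3 mod 4` and `n` of order `p - 1` or `(p - 1) / 2` -/
theorem index_of_order (p : ℕ) (hp : p.Prime) (h4 : p % 4 = 3) (n : ℤ)
    (h : orderOf (n : ZMod p) = p - 1 ∨ 2 * orderOf (n : ZMod p) = p - 1) :
    ∃ u : (ZMod p)ˣ, (u : ZMod p) = (n : ZMod p) ∧
      (Subgroup.zpowers u).index ∣ 2 ∧ Subgroup.closure {-1, u} = ⊤ := by
  haveI : Fact p.Prime := ⟨hp⟩
  have hp3 : 3 ≤ p := by
    have := hp.two_le
    omega
  have hn : (n : ZMod p) ≠ 0 := by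
    intro h0
    have h1 : orderOf (n : ZMod p) = 0 := by
      rw [h0, orderOf_eq_zero_iff']
      intro k hk
      rw [zero_pow hk.ne']
      exact zero_ne_one
    rw [h1] at h
    omega
  refine ⟨Units.mk0 _ hn, rfl, ?_⟩
  set u : (ZMod p)ˣ := Units.mk0 _ hn with hu
  have hou : orderOf u = orderOf (n : ZMod p) := by
    rw [← orderOf_units]
    rfl
  have hcard : Nat.card (ZMod p)ˣ = p - 1 := by
    rw [Nat.card_eq_fintype_card, ZMod.card_units_eq_totient, Nat.totient_prime hp]
  have hidx : (Subgroup.zpowers u).index * orderOf u = p - 1 := by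
    rw [← Nat.card_zpowers, ← hcard]
    exact Subgroup.index_mul_card _
  have hopos : 0 < orderOf u := orderOf_pos u
  have hidx2 : (Subgroup.zpowers u).index = 1 ∨ (Subgroup.zpowers u).index = 2 := by
    rw [hou] at hidx hopos
    rcases h with h | h
    · left
      rw [h] at hidx
      exact Nat.eq_of_mul_eq_mul_right (by omega : 0 < p - 1) (by rw [hidx, one_mul])
    · right
      rw [← h] at hidx
      exact Nat.eq_of_mul_eq_mul_right hopos hidx
  refine ⟨?_, ?_⟩
  · rcases hidx2 with h | h <;> rw [h] <;> norm_num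
  · rcases hidx2 with h | h
    · rw [Subgroup.index_eq_one] at h
      rw [eq_top_iff, ← h, Subgroup.zpowers_le]
      exact Subgroup.subset_closure (by simp)
    · -- the closure contains `⟨u⟩` of odd order strictly
      have hle : Subgroup.zpowers u ≤ Subgroup.closure {-1, u} := by
        rw [Subgroup.zpowers_le]
        exact Subgroup.subset_closure (by simp)
      have hord : 2 * orderOf u = p - 1 := by
        rw [h] at hidx
        exact hidx
      have hodd : ¬ 2 ∣ orderOf u := by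
        intro h2
        omega
      have hm1 : (-1 : (ZMod p)ˣ) ∉ Subgroup.zpowers u := by
        intro hmem
        have h1 : orderOf (-1 : (ZMod p)ˣ) ∣ Nat.card (Subgroup.zpowers u) :=
          Subgroup.orderOf_dvd_natCard _ hmem
        rw [Nat.card_zpowers] at h1
        have h2 : orderOf (-1 : (ZMod p)ˣ) = 2 := by
          rw [orderOf_eq_prime_iff]
          refine ⟨by simp, ?_⟩
          intro h3
          have h4 : (-1 : ZMod p) = 1 := by
            have := congrArg (fun w : (ZMod p)ˣ => (w : ZMod p)) h3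
            simpa using this
          haveI : Fact (2 < p) := ⟨by omega⟩
          exact ZMod.neg_one_ne_one h4
        rw [h2] at h1
        exact hodd h1
      have hlt : Subgroup.zpowers u < Subgroup.closure {-1, u} := by
        refine lt_of_le_of_ne hle ?_
        intro heq
        apply hm1
        rw [heq]
        exact Subgroup.subset_closure (by simp)
      have hdvd : (Subgroup.closure {-1, u}).index ∣ (Subgroup.zpowers u).index :=
        Subgroup.index_dvd_of_le hle
      rw [h] at hdvd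
      rcases (Nat.dvd_prime Nat.prime_two).1 hdvd with h5 | h5
      · exact Subgroup.index_eq_one.1 h5
      · exfalso
        have h6 : (Subgroup.zpowers u).relIndex (Subgroup.closure {-1, u}) *
            (Subgroup.closure {-1, u}).index = (Subgroup.zpowers u).index :=
          Subgroup.relIndex_mul_index hle
        rw [h5, h] at h6
        have h7 : (Subgroup.zpowers u).relIndex (Subgroup.closure {-1, u}) = 1 := by omega
        rw [Subgroup.relIndex_eq_one] at h7
        exact absurd h7 (not_le_of_gt hlt)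

theorem Adm_le (n : ℤ) (x z : ℕ) : (Pool.Agent.Y855.Adm n x z).card ≤ Q n x z := by
  unfold Q Pool.Agent.Y855.Adm
  rw [T3_eq]
  apply card_le_card
  intro p hp
  rw [mem_filter] at hp ⊢
  refine ⟨hp.1, ?_⟩
  have h1 := hp.1
  unfold Pool.Agent.Y855.T3 at h1
  rw [mem_filter, ← T_eq] at h1
  unfold T at h1
  rw [mem_filter] at h1
  exact index_of_order p h1.1.2.1 h1.2 n hp.2

theorem result :
    (∀ ε : ℝ, 0 < ε → ∃ K : ℝ, 1 ≤ K ∧ ∀ r : ℕ, 2 ≤ r → ∀ B : ℕ, ∃ x₀ : ℕ, ∀ x : ℕ, x₀ ≤ x →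
      ∀ z : ℕ, (z : ℝ) ^ K ≤ x → x ^ 2 ≤ z ^ r →
      (x : ℝ) / (K * (Real.log x * Real.log z)) ≤ (T3 x z).card ∧
      (x : ℝ) / (K * (Real.log x * Real.log z)) ≤ (T x z).card ∧
      ∀ (a : Fin r → ℤ) (b : ℤ), Independent a → (∀ i, a i ≠ 0 ∧ |(a i : ℝ)| ≤ (Real.log x) ^ B) →
        b ≠ 0 → |(b : ℝ)| ≤ (Real.log x) ^ B →
        ∀ (V : Finset (Fin r → ℕ)) (h : ℕ), Thin V z h → V.card ^ (2 * r) ≤ x →
        ∃ E ⊆ V, (E.card : ℝ) ≤ K * (h * (Real.log x / Real.log z)) ∧
          ∀ v ∈ V \ E,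
            (1 - ε) * (T3 x z).card ≤ (Q (elt a b v) x z : ℝ) ∧
            |(P (2 * (elt a b v) ^ 2) x z : ℝ) - 1 / 2 * (T x z).card| ≤ ε * (T x z).card) ∧
    (∀ r N z : ℕ, N ≤ z + 1 → Thin (curve r N) z r ∧ Thin (box r N) z (N ^ (r - 1))) := by
  refine ⟨fun ε hε => ?_, fun r N z hN => ⟨Pool.Agent.Y855.HypC_curve r N z hN,
    Pool.Agent.Y855.HypC_box r N z hN⟩⟩
  obtain ⟨K₁, hK₁, H₁⟩ := Pool.Agent.Y855.coset2 ε hε
  obtain ⟨K₂, hK₂, H₂⟩ := Pool.Agent.Y855.coset3 ε hε
  refine ⟨K₁ + K₂, by linarith, fun r hr B => ?_⟩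
  obtain ⟨x₁, H₁⟩ := H₁ r hr B
  obtain ⟨x₂, H₂⟩ := H₂ r hr B
  refine ⟨max (max x₁ x₂) 3, fun x hx z hz1 hz2 => ?_⟩
  have hx1 : x₁ ≤ x := ((le_max_left _ _).trans (le_max_left _ _)).trans hx
  have hx2 : x₂ ≤ x := ((le_max_right _ _).trans (le_max_left _ _)).trans hx
  have hx3 : 3 ≤ x := (le_max_right _ _).trans hx
  have hz0 : 1 ≤ z := by
    by_contra hcon
    have hz0 : z = 0 := by omega
    rw [hz0, zero_pow (by omega)] at hz2
    have : 0 < x ^ 2 := by positivity
    omega
  have hz0r : (1 : ℝ) ≤ z := by exact_mod_cast hz0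
  have hzK₁ : (z : ℝ) ^ K₁ ≤ x :=
    (Real.rpow_le_rpow_of_exponent_le hz0r (by linarith)).trans hz1
  have hzK₂ : (z : ℝ) ^ K₂ ≤ x :=
    (Real.rpow_le_rpow_of_exponent_le hz0r (by linarith)).trans hz1
  have hL0 : 0 < Real.log x := Real.log_pos (by
    have : (3 : ℝ) ≤ x := by exact_mod_cast hx3
    linarith)
  have hl0 : 0 ≤ Real.log z := Real.log_nonneg hz0r
  obtain ⟨H11, H12⟩ := H₁ x hx1 z hzK₁ hz2
  obtain ⟨H21, H22⟩ := H₂ x hx2 z hzK₂ hz2
  have hP : ∀ n : ℤ, P n x z = (Pool.Agent.Y855.PR n x z).card := by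
    intro n
    unfold P Pool.Agent.Y855.PR
    rw [T_eq]
  have hmon : ∀ K' : ℝ, 1 ≤ K' → K' ≤ K₁ + K₂ →
      (x : ℝ) / ((K₁ + K₂) * (Real.log x * Real.log z)) ≤
        (x : ℝ) / (K' * (Real.log x * Real.log z)) := by
    intro K' h1 h2
    rcases hl0.eq_or_lt with h0 | h0
    · rw [← h0]
      simp
    · apply div_le_div_of_nonneg_left (Nat.cast_nonneg _) (by positivity)
      exact mul_le_mul_of_nonneg_right h2 (by positivity)
  rw [T_eq, T3_eq]
  refine ⟨(hmon K₂ hK₂ (by linarith)).trans H21, (hmon K₁ hK₁ (by linarith)).trans H11, ?_⟩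
  intro a b hI ha hb hbB V h hV hVx
  obtain ⟨E₁, hE₁, hE₁c, h1⟩ := H12 a b ha hI hb hbB V h hV hVx
  obtain ⟨E₂, hE₂, hE₂c, h2⟩ := H22 a b ha hI hb hbB V h hV hVx
  refine ⟨E₁ ∪ E₂, union_subset hE₁ hE₂, ?_, ?_⟩
  · have h3 : ((E₁ ∪ E₂).card : ℝ) ≤ E₁.card + E₂.card := by
      exact_mod_cast card_union_le _ _
    rw [add_mul]
    linarith
  · intro v hv
    rw [mem_sdiff, mem_union, not_or] at hv
    refine ⟨?_, ?_⟩
    · refine (h2 v (mem_sdiff.2 ⟨hv.1, hv.2.2⟩)).trans ?_
      exact_mod_cast Adm_le _ x z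
    · rw [hP]
      exact h1 v (mem_sdiff.2 ⟨hv.1, hv.2.1⟩)

end Pool.Agent.Results.MP_48b1c3_nt.CosetsIndexTwo
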