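import Pool.Agent.X20.Tr.Avg
import Pool.Agent.Results.MP_48b1c3_nt.FewExceptions

/-!
# Lenstra's densities among the primes `⌊α n ^ c⌋`

The sets of primes of Q1, inside the primes of a sparse sequence `⌊α n ^ c⌋`.
From Mathlib: `dimH E`: the Hausdorff dimension; `⌊x⌋₊`: the integer part; `Finset.Icc 1 N`: the integers from `1`
to `N`. From the team's `FewExceptions`: `δ F C W k`: the density `δ(F, C, W, k)` of Q1, exactly as in `S16799`.
-/

set_option autoImplicit false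

namespace Pool.Agent.Results.MP_48b1c3_nt.LenstraAlongDilatedPowers

open Finset Filter NumberField
open Pool.Agent.X20.Tr
open Pool.Agent.Y854.PS (ms xs)
open Pool.Agent.Results.MP_48b1c3_nt.FewExceptions (δ)

/-- `q` is a prime in the set `S(F, C, W, k)` of Q1 (the condition is the one of `S16799`). -/
def InS (F : IntermediateField ℚ (AlgebraicClosure ℚ)) (C : Set (F ≃ₐ[ℚ] F)) (W : Subgroup ℚˣ) (k q : ℕ) : Prop :=
  q.Prime ∧
    (∃ σ ∈ C, ∃ Q : Ideal (𝓞 F), Q.IsPrime ∧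
        Q.comap (algebraMap ℤ (𝓞 F)) = Ideal.span {(q : ℤ)} ∧
        ∀ a b : 𝓞 F, (b : F) = σ (a : F) → b - a ^ q ∈ Q) ∧
    (∀ w ∈ W, padicValRat q (w : ℚ) = 0) ∧
    (Subgroup.closure {u : (ZMod q)ˣ | ∃ w ∈ W,
        (((w : ℚ).num : ℤ) : ZMod q) = (u : ZMod q) * (((w : ℚ).den : ℕ) : ZMod q)}).index ∣ k

/-- The share of the set `S(F, C, W, k)` among the primes `q ≤ x`. -/
noncomputable def share (F : IntermediateField ℚ (AlgebraicClosure ℚ)) (C : Set (F ≃ₐ[ℚ] F)) (W : Subgroup ℚˣ)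
    (k x : ℕ) : ℝ :=
  (Nat.card {q : ℕ // q ≤ x ∧ InS F C W k q} : ℝ) / (Nat.card {q : ℕ // q ≤ x ∧ q.Prime} : ℝ)

/-- The number of the `n`, `1 ≤ n ≤ N`, for which `⌊α n ^ c⌋` has the property `P`. -/
noncomputable def along (α c : ℝ) (P : ℕ → Prop) (N : ℕ) : ℕ :=
  Nat.card {n : ℕ // 1 ≤ n ∧ n ≤ N ∧ P ⌊α * (n : ℝ) ^ c⌋₊}

/-- the group generated by `W` and `D a ^ r` -/
def adj (W : Subgroup ℚˣ) (D : ℚˣ) (r a : ℕ) : Subgroup ℚˣ :=
  W ⊔ Subgroup.closure {w : ℚˣ | (w : ℚ) = (D : ℚ) * (a : ℚ) ^ r}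

/-- the set -/
def SS (F : IntermediateField ℚ (AlgebraicClosure ℚ)) (C : Set (F ≃ₐ[ℚ] F)) (W : Subgroup ℚˣ) (k : ℕ) : Set ℕ :=
  {q | InS F C W k q}

/-! ### countability -/

lemma closure_countable (K : Type) [Field K] [Countable K] : Countable (AlgebraicClosure K) := by
  have h := Algebra.IsAlgebraic.cardinalMk_le_max K (AlgebraicClosure K)
  rw [← Cardinal.mk_le_aleph0_iff]
  exact h.trans (max_le (Cardinal.mk_le_aleph0_iff.2 inferInstance) le_rfl)

lemma qbar_countable : Countable (AlgebraicClosure ℚ) := closure_countable ℚ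

lemma units_countable : Countable ℚˣ := (Units.val_injective (α := ℚ)).countable

lemma fg_closure {W : Subgroup ℚˣ} (h : W.FG) : ∃ T : Finset ℚˣ, W = Subgroup.closure (T : Set ℚˣ) := by
  obtain ⟨T, hT⟩ := h
  exact ⟨T, hT.symm⟩

/-- all the data -/
def Fams : Set (ℕ → Set ℕ) :=
  {f | ∃ (F : IntermediateField ℚ (AlgebraicClosure ℚ)) (_ : FiniteDimensional ℚ F) (C : Set (F ≃ₐ[ℚ] F))
    (W : Subgroup ℚˣ) (_ : W.FG) (k : ℕ) (D : ℚˣ) (r : ℕ), f = fun a => SS F C (adj W D r a) k}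

def Sets : Set (Set ℕ) :=
  {S | ∃ (F : IntermediateField ℚ (AlgebraicClosure ℚ)) (_ : FiniteDimensional ℚ F) (C : Set (F ≃ₐ[ℚ] F))
    (W : Subgroup ℚˣ) (_ : W.FG) (k : ℕ), S = SS F C W k}

lemma sets_countable (F : IntermediateField ℚ (AlgebraicClosure ℚ)) (_ : FiniteDimensional ℚ F) :
    Countable (Set (F ≃ₐ[ℚ] F)) := by
  have : Finite (F ≃ₐ[ℚ] F) := inferInstance
  exact Finite.to_countable

lemma exists_gen (F : IntermediateField ℚ (AlgebraicClosure ℚ)) (_ : FiniteDimensional ℚ F) :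
    ∃ s : Finset (AlgebraicClosure ℚ), F = IntermediateField.adjoin ℚ (s : Set (AlgebraicClosure ℚ)) := by
  have h3 : Algebra.EssFiniteType ℚ F := inferInstance
  obtain ⟨s, hs⟩ := IntermediateField.essFiniteType_iff.1 h3
  exact ⟨s, hs.symm⟩

lemma countable_fams : Fams.Countable := by
  have h0 := qbar_countable
  have h1 := units_countable
  have : Fams ⊆ ⋃ (x : Finset (AlgebraicClosure ℚ)),
      ⋃ (_ : FiniteDimensional ℚ (IntermediateField.adjoin ℚ (x : Set (AlgebraicClosure ℚ)))),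
      ⋃ (C : Set (IntermediateField.adjoin ℚ (x : Set (AlgebraicClosure ℚ)) ≃ₐ[ℚ]
        IntermediateField.adjoin ℚ (x : Set (AlgebraicClosure ℚ)))),
      ⋃ (T : Finset ℚˣ), ⋃ (k : ℕ), ⋃ (D : ℚˣ), ⋃ (r : ℕ),
      {fun a => SS (IntermediateField.adjoin ℚ (x : Set (AlgebraicClosure ℚ))) C
        (adj (Subgroup.closure (T : Set ℚˣ)) D r a) k} := by
    rintro f ⟨F, hF, C, W, hW, k, D, r, rfl⟩
    obtain ⟨x, rfl⟩ := exists_gen F hF
    obtain ⟨T, rfl⟩ := fg_closure hW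
    simp only [Set.mem_iUnion, Set.mem_singleton_iff]
    exact ⟨x, hF, C, T, k, D, r, rfl⟩
  refine Set.Countable.mono this ?_
  refine Set.countable_iUnion fun x => Set.countable_iUnion fun hx => ?_
  have := sets_countable _ hx
  refine Set.countable_iUnion fun C => Set.countable_iUnion fun T => Set.countable_iUnion fun k =>
    Set.countable_iUnion fun D => Set.countable_iUnion fun r => Set.countable_singleton _

lemma countable_sets : Sets.Countable := by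
  have h0 := qbar_countable
  have h1 := units_countable
  have : Sets ⊆ ⋃ (x : Finset (AlgebraicClosure ℚ)),
      ⋃ (_ : FiniteDimensional ℚ (IntermediateField.adjoin ℚ (x : Set (AlgebraicClosure ℚ)))),
      ⋃ (C : Set (IntermediateField.adjoin ℚ (x : Set (AlgebraicClosure ℚ)) ≃ₐ[ℚ]
        IntermediateField.adjoin ℚ (x : Set (AlgebraicClosure ℚ)))),
      ⋃ (T : Finset ℚˣ), ⋃ (k : ℕ),
      {SS (IntermediateField.adjoin ℚ (x : Set (AlgebraicClosure ℚ))) C (Subgroup.closure (T : Set ℚˣ)) k} := by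
    rintro f ⟨F, hF, C, W, hW, k, rfl⟩
    obtain ⟨x, rfl⟩ := exists_gen F hF
    obtain ⟨T, rfl⟩ := fg_closure hW
    simp only [Set.mem_iUnion, Set.mem_singleton_iff]
    exact ⟨x, hF, C, T, k, rfl⟩
  refine Set.Countable.mono this ?_
  refine Set.countable_iUnion fun x => Set.countable_iUnion fun hx => ?_
  have := sets_countable _ hx
  refine Set.countable_iUnion fun C => Set.countable_iUnion fun T => Set.countable_iUnion fun k =>
    Set.countable_singleton _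

/-! ### translations -/

lemma card_eq (s : Finset ℕ) {p q : ℕ → Prop} {dp : DecidablePred p} {dq : DecidablePred q}
    (h : ∀ x, p x ↔ q x) : (@Finset.filter ℕ p dp s).card = (@Finset.filter ℕ q dq s).card := by
  congr 1
  ext x
  rw [mem_filter, mem_filter, h x]

lemma nat_card (P : ℕ → Prop) (h0 : ¬ P 0) (X : ℕ) : Nat.card {p : ℕ // p ≤ X ∧ P p} = cnt {p | P p} X := by
  classical
  unfold cnt
  refine Nat.subtype_card _ fun x => ?_
  rw [mem_filter, mem_Icc]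
  constructor
  · rintro ⟨⟨_, h1⟩, h2⟩
    exact ⟨h1, h2⟩
  · rintro ⟨h1, h2⟩
    refine ⟨⟨?_, h1⟩, h2⟩
    rcases Nat.eq_zero_or_pos x with h3 | h3
    · rw [h3] at h2
      exact absurd h2 h0
    · exact h3

lemma along_eq (α c : ℝ) (P : ℕ → Prop) (N : ℕ) : along α c P N = hit c α {p | P p} N := by
  classical
  unfold along hit
  refine Nat.subtype_card _ fun x => ?_
  rw [mem_filter, mem_Icc]
  constructor
  · rintro ⟨⟨h1, h2⟩, h3⟩
    exact ⟨h1, h2, h3⟩
  · rintro ⟨h1, h2, h3⟩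
    exact ⟨⟨h1, h2⟩, h3⟩

lemma pc (x : ℕ) : Nat.card {q : ℕ // q ≤ x ∧ q.Prime} = Nat.primeCounting x := by
  rw [nat_card Nat.Prime Nat.not_prime_zero, ← cnt_primes]
  rfl

lemma share_eq (F : IntermediateField ℚ (AlgebraicClosure ℚ)) (C : Set (F ≃ₐ[ℚ] F)) (W : Subgroup ℚˣ)
    (k x : ℕ) : share F C W k x = (cnt (SS F C W k) x : ℝ) / Nat.primeCounting x := by
  unfold share
  rw [nat_card (InS F C W k) (fun h => Nat.not_prime_zero h.1), pc]
  rfl

lemma SS_sub (F : IntermediateField ℚ (AlgebraicClosure ℚ)) (C : Set (F ≃ₐ[ℚ] F)) (W : Subgroup ℚˣ) (k : ℕ) :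
    SS F C W k ⊆ Primes := fun _ h => h.1

/-- the bound for the density -/
lemma dens_le {B : Set ℕ} (hB : B ⊆ Primes) {δ : ℝ} {x : ℕ} (hx : 2 ≤ x)
    (h : |(cnt B x : ℝ) - δ * Nat.primeCounting x| ≤ 1 / 2 * Nat.primeCounting x) : |δ| ≤ 2 := by
  have hBP : (cnt B x : ℝ) ≤ Nat.primeCounting x := by
    classical
    rw [← cnt_primes]
    unfold cnt
    exact_mod_cast card_le_card (fun m hm => by
      rw [mem_filter] at hm ⊢
      exact ⟨hm.1, hB hm.2⟩)
  have hB0 : (0 : ℝ) ≤ cnt B x := Nat.cast_nonneg _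
  have hP : (0 : ℝ) < Nat.primeCounting x := by
    have h2 : Nat.primeCounting 2 ≤ Nat.primeCounting x := Nat.monotone_primeCounting hx
    have h3 : 0 < Nat.primeCounting 2 := by
      rw [← cnt_primes]
      unfold cnt
      classical
      apply card_pos.2
      exact ⟨2, mem_filter.2 ⟨mem_Icc.2 ⟨by norm_num, le_rfl⟩, Nat.prime_two⟩⟩
    exact_mod_cast lt_of_lt_of_le h3 h2
  rw [_root_.abs_le] at h ⊢
  constructor
  · by_contra hcon
    push Not at hcon
    nlinarith [h.1, h.2]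
  · by_contra hcon
    push Not at hcon
    nlinarith [h.1, h.2]

/-- all large `N` satisfy the inequalities used below -/
lemma large (κ c α C₀ cc : ℝ) (hκ : 0 < κ) (hc : 0 < c) (hα : 0 < α) (hcc : 0 < cc) : ∃ N₀ : ℕ, ∀ N : ℕ, N₀ ≤ N →
    2 ≤ (N : ℝ) ^ κ ∧ Real.log (α * (N : ℝ) ^ c) ≤ (Real.log ⌊(N : ℝ) ^ κ⌋₊) ^ (1 + cc) := by
  have hlogT : Tendsto (fun N : ℕ => Real.log (N : ℝ)) atTop atTop :=
    Real.tendsto_log_atTop.comp tendsto_natCast_atTop_atTop
  have hT2 : Tendsto (fun N : ℕ => (κ / 2 * Real.log (N : ℝ)) ^ cc) atTop atTop :=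
    (tendsto_rpow_atTop hcc).comp (hlogT.const_mul_atTop (by positivity))
  obtain ⟨N₀, h⟩ := ((((tend_pow κ hκ).eventually_ge_atTop 2).and
    (hlogT.eventually_ge_atTop (max 1 (Real.log α)))).and
    ((hT2.eventually_ge_atTop (2 / κ * (c + 1))).and
    (hlogT.eventually_ge_atTop (2 / κ * Real.log 2)))).exists_forall_of_atTop
  refine ⟨N₀, fun N hN => ?_⟩
  obtain ⟨⟨k1, k2⟩, k3, k4⟩ := h N hN
  refine ⟨k1, ?_⟩
  have hL1 : 1 ≤ Real.log (N : ℝ) := (le_max_left _ _).trans k2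
  have hLα : Real.log α ≤ Real.log (N : ℝ) := (le_max_right _ _).trans k2
  have hN0 : (0 : ℝ) < N := by
    by_contra hcon
    have : (N : ℝ) = 0 := le_antisymm (not_lt.1 hcon) (Nat.cast_nonneg _)
    rw [this, Real.log_zero] at hL1
    linarith
  have h1 : (N : ℝ) ^ κ / 2 ≤ (⌊(N : ℝ) ^ κ⌋₊ : ℝ) := by
    have := Nat.lt_floor_add_one ((N : ℝ) ^ κ)
    linarith
  have h2 : κ / 2 * Real.log (N : ℝ) ≤ Real.log (⌊(N : ℝ) ^ κ⌋₊ : ℝ) := by
    have h3 := Real.log_le_log (by positivity) h1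
    rw [Real.log_div (by positivity) (by norm_num), Real.log_rpow hN0] at h3
    have h4 : Real.log 2 ≤ κ / 2 * Real.log (N : ℝ) := by
      have := mul_le_mul_of_nonneg_left k4 (show 0 ≤ κ / 2 by positivity)
      refine le_trans (le_of_eq ?_) this
      field_simp
    linarith
  have h5 : 0 < κ / 2 * Real.log (N : ℝ) := by positivity
  calc Real.log (α * (N : ℝ) ^ c) = Real.log α + c * Real.log N := by
        rw [Real.log_mul hα.ne' (by positivity), Real.log_rpow hN0]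
    _ ≤ (c + 1) * Real.log N := by linarith
    _ = κ / 2 * Real.log (N : ℝ) * (2 / κ * (c + 1)) := by field_simp
    _ ≤ κ / 2 * Real.log (N : ℝ) * (κ / 2 * Real.log (N : ℝ)) ^ cc := mul_le_mul_of_nonneg_left k3 h5.le
    _ = (κ / 2 * Real.log (N : ℝ)) ^ (1 + cc) := by rw [Real.rpow_add h5, Real.rpow_one]
    _ ≤ (Real.log ⌊(N : ℝ) ^ κ⌋₊) ^ (1 + cc) := Real.rpow_le_rpow h5.le h2 (by positivity)

open Classical in
/-- Let `c > 1` and `1 / 2 < θ < 1` be real. There are `κ > 0` and a set `E` of real numbers of Hausdorff dimension at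
most `1 - κ` such that for every real `α > 0` outside `E`, writing `m(n) = ⌊α n ^ c⌋`:

* for ALL data `(F, C, W, k)` of Q1 and every real `ρ`: the set `S(F, C, W, k)` has the density `ρ` among all primes
  if and only if it has the density `ρ` among the primes of the sequence `m(n)`;
* (uniformity) for all data `(F, C, W, k)`, `D ∈ ℚˣ`, `r`, all large `N` and ALL `a ≤ N ^ κ`: for the group
  `W(a) = ⟨W, D a ^ r⟩` the number of the `n ≤ N` with `m(n) ∈ S(F, C, W(a), k)` is, up to `N ^ (1 - κ)`, the number of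
  all `q ≤ α N ^ c` in this set, counted with the weights `(1 / c) α ^ (-1 / c) q ^ (1 / c - 1)`;
* (unconditional density on average) if `ℓ ^ (ν_ℓ(k) + 1) ∣ r` for all primes `ℓ ∣ r` (every `r ≥ 1` if `k = 1`, and
  `r = 1` for every `k`), then for every `ε > 0` and all large `N`: for all but at most `(N ^ κ) ^ θ` of the integers
  `a ≤ N ^ κ` the share of the set `S(F, C, W(a), k)` among the primes of the sequence up to `m(N)` differs by at most
  `ε` from Lenstra's density `δ(F, C, W(a), k)`. -/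
theorem result (c θ : ℝ) (hc : 1 < c) (hθ : 1 / 2 < θ) (hθ1 : θ < 1) :
    ∃ κ : ℝ, 0 < κ ∧ κ < 1 ∧ ∃ E : Set ℝ, dimH E ≤ ENNReal.ofReal (1 - κ) ∧ ∀ α : ℝ, 0 < α → α ∉ E →
      (∀ (F : IntermediateField ℚ (AlgebraicClosure ℚ)) [NumberField F] (C : Set (F ≃ₐ[ℚ] F)) (W : Subgroup ℚˣ)
        (k : ℕ), W.FG → ∀ ρ : ℝ,
        (Tendsto (share F C W k) atTop (nhds ρ) ↔
          Tendsto (fun N : ℕ => (along α c (InS F C W k) N : ℝ) / along α c Nat.Prime N) atTop (nhds ρ))) ∧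
      (∀ (F : IntermediateField ℚ (AlgebraicClosure ℚ)) [NumberField F] (C : Set (F ≃ₐ[ℚ] F)) (W : Subgroup ℚˣ)
        (k : ℕ) (D : ℚˣ) (r : ℕ), W.FG → ∃ N₀ : ℕ, ∀ N : ℕ, N₀ ≤ N → ∀ a : ℕ, (a : ℝ) ≤ (N : ℝ) ^ κ →
        |(along α c (InS F C (adj W D r a) k) N : ℝ) -
          ∑ q ∈ (Ioc 0 ⌊α * (N : ℝ) ^ c⌋₊).filter (InS F C (adj W D r a) k),
            1 / c * α ^ (-(1 / c)) * (q : ℝ) ^ (1 / c - 1)| ≤ (N : ℝ) ^ (1 - κ)) ∧
      (∀ (F : IntermediateField ℚ (AlgebraicClosure ℚ)) [NumberField F] [IsGalois ℚ F] (C : Set (F ≃ₐ[ℚ] F))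
        (W : Subgroup ℚˣ) (k : ℕ) (D : ℚˣ) (r : ℕ),
        (∀ σ ∈ C, ∀ τ : F ≃ₐ[ℚ] F, τ * σ * τ⁻¹ ∈ C) → W.FG → 0 < k →
        0 < r → (∀ l : ℕ, l.Prime → l ∣ r → l ^ (k.factorization l + 1) ∣ r) →
        ∀ ε : ℝ, 0 < ε → ∃ N₀ : ℕ, ∀ N : ℕ, N₀ ≤ N →
          (((Finset.Icc 1 ⌊(N : ℝ) ^ κ⌋₊).filter (fun a : ℕ =>
            ε * (along α c Nat.Prime N : ℝ) < |(along α c (InS F C (adj W D r a) k) N : ℝ) -
              δ F C (adj W D r a) k * (along α c Nat.Prime N : ℝ)|)).card : ℝ) ≤ ((N : ℝ) ^ κ) ^ θ) := by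
  obtain ⟨C₀, hC₀⟩ : ∃ C₀ : ℝ, C₀ = θ * (1 - θ) / (2 * θ - 1) + 2 := ⟨_, rfl⟩
  have h2θ : 0 < 2 * θ - 1 := by linarith
  have hq : 0 < θ * (1 - θ) / (2 * θ - 1) := by
    have : 0 < 1 - θ := by linarith
    positivity
  have hC₀1 : 1 < C₀ := by rw [hC₀]; linarith
  have hC₀2 : θ * (1 - θ) < C₀ * (2 * θ - 1) := by
    rw [hC₀, add_mul, div_mul_cancel₀ _ h2θ.ne']
    linarith
  obtain ⟨cc, hcc, hfew⟩ := FewExceptions.result θ C₀ hθ hθ1 hC₀1 hC₀2
  obtain ⟨κ, hκ0, hκ1, H⟩ := two_fam c hc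
  -- enumerations
  have hne1 : Fams.Nonempty := by
    refine ⟨_, ⊥, ?_, ∅, ⊥, ?_, 0, 1, 0, rfl⟩
    · infer_instance
    · exact ⟨∅, by simp⟩
  have hne2 : Sets.Nonempty := by
    refine ⟨_, ⊥, ?_, ∅, ⊥, ?_, 0, rfl⟩
    · infer_instance
    · exact ⟨∅, by simp⟩
  obtain ⟨e, he⟩ := countable_fams.exists_eq_range hne1
  obtain ⟨g, hg⟩ := countable_sets.exists_eq_range hne2
  obtain ⟨E, hE, h⟩ := H (fun t => ind (e (Nat.unpair t).1 (Nat.unpair t).2)) (fun t => ind_tri _)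
    (Unit ⊕ ℕ) (Sum.elim (fun _ => ind Primes) (fun i => ind (g i)))
    (by
      rintro (a | b)
      · exact ind_tri _
      · exact ind_tri _)
  obtain ⟨κ', hκ'⟩ : ∃ κ' : ℝ, κ' = min (κ / 4) ((1 - κ) / C₀) := ⟨_, rfl⟩
  have hκ'0 : 0 < κ' := by
    rw [hκ']
    exact lt_min (by positivity) (div_pos (by linarith) (by linarith))
  have hκ'4 : κ' ≤ κ / 4 := by rw [hκ']; exact min_le_left _ _
  have hκ'C : κ' * C₀ ≤ 1 - κ := by
    have : κ' ≤ (1 - κ) / C₀ := by rw [hκ']; exact min_le_right _ _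
    rwa [le_div_iff₀ (by linarith)] at this
  refine ⟨κ', hκ'0, by linarith, E, hE.trans (ENNReal.ofReal_le_ofReal (by linarith)), fun α hα hαE => ?_⟩
  obtain ⟨⟨N₁, h1⟩, _, h3⟩ := h α hα hαE
  have hP : Cmp c α κ (ind Primes) := h3 (Sum.inl ())
  -- the uniform comparison
  have huni : ∀ i : ℕ, ∃ N₀ : ℕ, ∀ N : ℕ, N₀ ≤ N → ∀ a : ℕ, (a : ℝ) ≤ (N : ℝ) ^ κ' →
      |∑ n ∈ Icc 1 N, ind (e i a) (ms α c n) - ∑ m ∈ Ioc 0 (ms α c N), ind (e i a) m * wt c α m| ≤
        (N : ℝ) ^ (1 - κ) := by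
    intro i
    obtain ⟨N₂, h2⟩ := (((tend_pow (κ / 4) (by positivity)).eventually_ge_atTop (max 2 (i : ℝ))).and
      (eventually_ge_atTop 1)).exists_forall_of_atTop
    refine ⟨max N₁ N₂, fun N hN a ha => ?_⟩
    obtain ⟨k1, k2⟩ := h2 N ((le_max_right _ _).trans hN)
    have hN1 : (1 : ℝ) ≤ N := by exact_mod_cast k2
    have hN0 : (0 : ℝ) < N := by linarith
    have k3 : (2 : ℝ) ≤ (N : ℝ) ^ (κ / 4) := (le_max_left _ _).trans k1
    have k4 : (i : ℝ) ≤ (N : ℝ) ^ (κ / 4) := (le_max_right _ _).trans k1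
    have k5 : (a : ℝ) ≤ (N : ℝ) ^ (κ / 4) := ha.trans (Real.rpow_le_rpow_of_exponent_le hN1 hκ'4)
    have h5 := (h1 N ((le_max_left _ _).trans hN)).2 (Nat.pair i a) (by
      have h6 : ((Nat.pair i a : ℕ) : ℝ) ≤ ((max i a : ℕ) + 1 : ℝ) ^ 2 := by
        have := Nat.pair_lt_max_add_one_sq i a
        exact_mod_cast this.le
      have h7 : ((max i a : ℕ) : ℝ) ≤ (N : ℝ) ^ (κ / 4) := by
        rw [Nat.cast_max]
        exact max_le k4 k5
      refine h6.trans ?_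
      have h8 : (N : ℝ) ^ κ = ((N : ℝ) ^ (κ / 4)) ^ 4 := by
        rw [← Real.rpow_natCast, ← Real.rpow_mul hN0.le]
        congr 1
        push_cast
        ring
      rw [h8]
      have h9 : (((max i a : ℕ) : ℝ) + 1) ^ 2 ≤ ((N : ℝ) ^ (κ / 4) + 1) ^ 2 :=
        pow_le_pow_left₀ (by positivity) (by linarith) 2
      refine h9.trans ?_
      obtain ⟨y, hy⟩ : ∃ y : ℝ, y = (N : ℝ) ^ (κ / 4) := ⟨_, rfl⟩
      rw [← hy] at k3 ⊢
      have h10 : y + 1 ≤ y ^ 2 := by nlinarith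
      calc (y + 1) ^ 2 ≤ (y ^ 2) ^ 2 := pow_le_pow_left₀ (by linarith) h10 2
        _ = y ^ 4 := by ring)
    simp only [Nat.unpair_pair] at h5
    exact h5
  refine ⟨?_, ?_, ?_⟩
  · intro F _ C W k hW ρ
    have hmem : SS F C W k ∈ Sets := ⟨F, inferInstance, C, W, hW, k, rfl⟩
    rw [hg] at hmem
    obtain ⟨i, hi⟩ := hmem
    have hC : Cmp c α κ (ind (SS F C W k)) := by
      rw [← hi]
      exact h3 (Sum.inr i)
    have h4 := prime_iff hc hα hκ0 hκ1 (SS_sub F C W k) hC hP ρ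
    have e1 : share F C W k = fun X : ℕ => (cnt (SS F C W k) X : ℝ) / Nat.primeCounting X :=
      funext fun X => share_eq F C W k X
    have e2 : (fun N : ℕ => (along α c (InS F C W k) N : ℝ) / along α c Nat.Prime N) =
        fun N : ℕ => (hit c α (SS F C W k) N : ℝ) / hit c α Primes N := by
      funext N
      rw [along_eq, along_eq]
      rfl
    rw [e1, e2]
    exact h4
  · intro F _ C W k D r hW
    have hmem : (fun a => SS F C (adj W D r a) k) ∈ Fams := ⟨F, inferInstance, C, W, hW, k, D, r, rfl⟩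
    rw [he] at hmem
    obtain ⟨i, hi⟩ := hmem
    obtain ⟨N₂, h2⟩ := huni i
    refine ⟨max N₂ 1, fun N hN a ha => ?_⟩
    have h4 := h2 N ((le_max_left _ _).trans hN) a ha
    rw [hi] at h4
    have hN1 : (1 : ℝ) ≤ N := by exact_mod_cast (le_max_right _ _).trans hN
    have h5 : (N : ℝ) ^ (1 - κ) ≤ (N : ℝ) ^ (1 - κ') := Real.rpow_le_rpow_of_exponent_le hN1 (by linarith)
    refine le_trans (le_of_eq ?_) (h4.trans h5)
    congr 1
    congr 1
    · rw [along_eq, sum_ind]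
      unfold hit
      rfl
    · rw [sum_filter]
      apply sum_congr rfl
      intro m _
      unfold ind wt
      show (if InS F C (adj W D r a) k m then _ else (0 : ℝ)) = (if InS F C (adj W D r a) k m then (1 : ℝ) else 0) * _
      split_ifs
      · rw [one_mul]
      · rw [zero_mul]
  · intro F _ _ C W k D r hC hW hk hr hrk ε0 hε0
    obtain ⟨ε, hε⟩ : ∃ ε : ℝ, ε = min ε0 1 := ⟨_, rfl⟩
    have hε1 : 0 < ε := by rw [hε]; exact lt_min hε0 one_pos
    have hε2 : ε ≤ 1 := by rw [hε]; exact min_le_right _ _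
    have hε3 : ε ≤ ε0 := by rw [hε]; exact min_le_left _ _
    have hmem : (fun a => SS F C (adj W D r a) k) ∈ Fams := ⟨F, inferInstance, C, W, hW, k, D, r, rfl⟩
    rw [he] at hmem
    obtain ⟨i, hi⟩ := hmem
    obtain ⟨N₂, h2⟩ := huni i
    obtain ⟨A₀, h4⟩ := hfew F C W k D r hC hW hk hr hrk (ε / 2) (by positivity)
    obtain ⟨N₃, h5⟩ := avg hc hα hκ0 hκ1 hP ε hε1 hε2
    obtain ⟨N₄, h6⟩ := large κ' c α C₀ cc hκ'0 (by linarith) hα hcc
    obtain ⟨N₅, h7⟩ := ((((tend_pow κ' hκ'0).eventually_ge_atTop ((A₀ : ℝ) + 1)).and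
      (eventually_ge_atTop 1)).and (((tend_ms hc hα).eventually_ge_atTop 2).and
      ((tend_pow (c - 1) (by linarith)).eventually_ge_atTop (2 / α)))).exists_forall_of_atTop
    refine ⟨max (max N₂ N₃) (max N₄ N₅), fun N hN => ?_⟩
    obtain ⟨⟨k1, k2⟩, k3, k6⟩ := h7 N ((le_max_right _ _).trans ((le_max_right _ _).trans hN))
    obtain ⟨k4, k5⟩ := h6 N ((le_max_left _ _).trans ((le_max_right _ _).trans hN))
    have hN1 : (1 : ℝ) ≤ N := by exact_mod_cast k2
    have hN0 : (0 : ℝ) < N := by linarith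
    obtain ⟨A, hA⟩ : ∃ A : ℕ, A = ⌊(N : ℝ) ^ κ'⌋₊ := ⟨_, rfl⟩
    have hA1 : (A : ℝ) ≤ (N : ℝ) ^ κ' := by rw [hA]; exact Nat.floor_le (by positivity)
    have hA0 : A₀ ≤ A := by
      rw [hA]
      exact Nat.le_floor (by linarith)
    rw [← hA] at k5 ⊢
    have h8 := h4 A hA0
    refine le_trans ?_ (h8.trans (Real.rpow_le_rpow (Nat.cast_nonneg _) hA1 (by linarith)))
    rw [Nat.cast_le]
    apply card_le_card
    intro a ha
    rw [mem_filter] at ha ⊢
    refine ⟨ha.1, ?_⟩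
    by_contra hcon
    push Not at hcon
    apply absurd ha.2
    rw [not_lt]
    have haA : a ≤ A := (mem_Icc.1 ha.1).2
    have haN : (a : ℝ) ≤ (N : ℝ) ^ κ' := le_trans (by exact_mod_cast haA) hA1
    have h9 := h2 N ((le_max_left _ _).trans ((le_max_left _ _).trans hN)) a haN
    rw [hi] at h9
    have hA2 : (A : ℝ) ^ C₀ ≤ (N : ℝ) ^ (1 - κ) := by
      calc (A : ℝ) ^ C₀ ≤ ((N : ℝ) ^ κ') ^ C₀ := Real.rpow_le_rpow (Nat.cast_nonneg _) hA1 (by linarith)
        _ = (N : ℝ) ^ (κ' * C₀) := by rw [← Real.rpow_mul hN0.le]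
        _ ≤ (N : ℝ) ^ (1 - κ) := Real.rpow_le_rpow_of_exponent_le hN1 hκ'C
    have hM : ∀ x : ℕ, x ≤ ms α c N → (x : ℝ) ≤ Real.exp ((Real.log A) ^ (1 + cc)) := by
      intro x hx
      have h10 : (x : ℝ) ≤ α * (N : ℝ) ^ c := by
        refine le_trans (Nat.cast_le.2 hx) ?_
        unfold ms xs
        exact Nat.floor_le (by positivity)
      refine h10.trans ?_
      rw [← Real.exp_log (show 0 < α * (N : ℝ) ^ c by positivity)]
      exact Real.exp_le_exp.2 k5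
    have hkey : ∀ x : ℕ, (A : ℝ) ^ C₀ ≤ x → x ≤ ms α c N →
        |(cnt (SS F C (adj W D r a) k) x : ℝ) - δ F C (adj W D r a) k * Nat.primeCounting x| ≤
          ε / 2 * Nat.primeCounting x := by
      intro x hx1 hx2
      have h10 := hcon x ⟨hx1, hM x hx2⟩
      have h11 : FewExceptions.S F C (adj W D r a) k x = cnt (SS F C (adj W D r a) k) x := by
        rw [show cnt (SS F C (adj W D r a) k) x = Nat.card {q : ℕ // q ≤ x ∧ InS F C (adj W D r a) k q} from
          (nat_card (InS F C (adj W D r a) k) (fun h => Nat.not_prime_zero h.1) x).symm]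
        rfl
      rw [← h11]
      exact h10
    have h12 := h5 N ((le_max_right _ _).trans ((le_max_left _ _).trans hN)) (SS F C (adj W D r a) k)
      (δ F C (adj W D r a) k) ((A : ℝ) ^ C₀) (SS_sub _ _ _ _) (by
        have hNM : (N : ℝ) ≤ ms α c N := by
          have h13 : (N : ℝ) + 1 ≤ α * (N : ℝ) ^ c := by
            have h14 : (N : ℝ) ^ c = (N : ℝ) ^ (c - 1) * N := by
              rw [← Real.rpow_add_one hN0.ne']
              congr 1
              ring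
            have h15 : 2 ≤ α * (N : ℝ) ^ (c - 1) := by
              rw [div_le_iff₀ hα] at k6
              linarith
            rw [h14, ← mul_assoc]
            nlinarith
          have h16 : α * (N : ℝ) ^ c < (ms α c N : ℝ) + 1 := by
            unfold ms xs
            exact Nat.lt_floor_add_one _
          linarith
        have h17 : (A : ℝ) ^ C₀ ≤ (ms α c N : ℝ) := by
          refine hA2.trans (le_trans ?_ hNM)
          calc (N : ℝ) ^ (1 - κ) ≤ (N : ℝ) ^ (1 : ℝ) := Real.rpow_le_rpow_of_exponent_le hN1 (by linarith)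
            _ = N := Real.rpow_one _
        refine dens_le (SS_sub _ _ _ _) k3 ((hkey _ h17 le_rfl).trans ?_)
        exact mul_le_mul_of_nonneg_right (by linarith) (Nat.cast_nonneg _)) hA2 h9 hkey
    rw [along_eq, along_eq]
    refine h12.trans ?_
    exact mul_le_mul_of_nonneg_right hε3 (Nat.cast_nonneg _)

end Pool.Agent.Results.MP_48b1c3_nt.LenstraAlongDilatedPowers
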