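import Pool.Agent.X208.LR.Slow

set_option autoImplicit false
set_option linter.unusedSectionVars false

/-! # Reduction of Lenstra's problem to the field `ℚ`, groups of rank one and the order of magnitude
of the index

The law of Q1 for the data `(F, C, W, k)` is compared for different data.

1. The law is inherited: if it holds for `(F_i, C_i, W, k)` (`i ∈ I`) and the Frobenius conditions
   `(F_i, C_i)` cover the condition `(F, C)` up to sets of primes of small density, then it holds for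
   `(F, C, V, k')` for all `V` commensurable with `W`, if `V ^ m ⊆ W` and `k' m ∣ k`.
2. For given `W` the law for `(ℚ, W, k)` and sufficiently divisible `k` is equivalent to: the index of
   `W` modulo `q` is smaller than `f(q)` for almost all `q`, for every function `f → ∞`; and to the law
   for all `F`, `C`, `k` and all finitely generated `V ⊇ W ^ n`, `n ≥ 1`.
3. Q1 for all data is equivalent to its case `F = ℚ`, `W = ⟨a⟩`, `a > 1` rational; and to: for every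
   rational `a > 1` and every `f → ∞` the index of `⟨a⟩` modulo `q` is at most `f(q)` for almost all
   primes `q`.

Libraries: helper401 (density theorem of Chebotarev), helper171 (Lenstra's local densities). -/

namespace Pool.Agent.Results.MP_48b1c3_nt.ReductionToRationals

open NumberField Finset Filter Topology
open Pool.Agent.W401.Cheb (M pr mem_pr)
open Pool.Agent.W171.LG (QA GF LC tW)
open Pool.Agent.X208.LR

/-- the Frobenius condition at `q` -/
def Frob (F : IntermediateField ℚ (AlgebraicClosure ℚ)) [NumberField F] (C : Set (F ≃ₐ[ℚ] F))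
    (q : ℕ) : Prop :=
  ∃ σ ∈ C, ∃ Q : Ideal (𝓞 F), Q.IsPrime ∧
    Q.comap (algebraMap ℤ (𝓞 F)) = Ideal.span {(q : ℤ)} ∧
    ∀ a b : 𝓞 F, (b : F) = σ (a : F) → b - a ^ q ∈ Q

/-- the index of the group of the residues of `W` modulo `q` -/
noncomputable def index (W : Subgroup ℚˣ) (q : ℕ) : ℕ :=
  (Subgroup.closure {u : (ZMod q)ˣ | ∃ w ∈ W,
    (((w : ℚ).num : ℤ) : ZMod q) = (u : ZMod q) * (((w : ℚ).den : ℕ) : ZMod q)}).index

/-- the share of a set of primes among the primes `q ≤ x` -/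
noncomputable def share (P : ℕ → Prop) (x : ℕ) : ℝ :=
  (Nat.card {q : ℕ // q ≤ x ∧ q.Prime ∧ P q} : ℝ) / (Nat.card {q : ℕ // q ≤ x ∧ q.Prime} : ℝ)

/-- Lenstra's density -/
noncomputable def δ (F : IntermediateField ℚ (AlgebraicClosure ℚ)) [NumberField F]
    (C : Set (F ≃ₐ[ℚ] F)) (W : Subgroup ℚˣ) (k : ℕ) : ℝ :=
  ∑' n : ℕ, (ArithmeticFunction.moebius n : ℝ) *
    (Nat.card {σ : F ≃ₐ[ℚ] F // σ ∈ C ∧ ∀ y : F,
        (y : AlgebraicClosure ℚ) ∈ IntermediateField.adjoin ℚ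
          {z : AlgebraicClosure ℚ | ∃ w ∈ W,
            z ^ (∏ l ∈ n.primeFactors, l ^ (k.factorization l + 1)) =
              algebraMap ℚ (AlgebraicClosure ℚ) (w : ℚ)} → σ y = y} : ℝ) /
    (Module.finrank ℚ ↥(F ⊔ IntermediateField.adjoin ℚ
          {z : AlgebraicClosure ℚ | ∃ w ∈ W,
            z ^ (∏ l ∈ n.primeFactors, l ^ (k.factorization l + 1)) =
              algebraMap ℚ (AlgebraicClosure ℚ) (w : ℚ)}) : ℝ)

/-- the law of Q1 for the data `(F, C, W, k)` -/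
def Law (F : IntermediateField ℚ (AlgebraicClosure ℚ)) [NumberField F]
    (C : Set (F ≃ₐ[ℚ] F)) (W : Subgroup ℚˣ) (k : ℕ) : Prop :=
  Tendsto (share fun q => Frob F C q ∧ (∀ w ∈ W, padicValRat q (w : ℚ) = 0) ∧ index W q ∣ k)
    atTop (nhds (δ F C W k))

/-- the law for `(ℚ, Gal(ℚ/ℚ), W, k)` -/
def LawQ (W : Subgroup ℚˣ) (k : ℕ) : Prop :=
  Law (⊥ : IntermediateField ℚ (AlgebraicClosure ℚ)) Set.univ W k

/-- conjugation-stable -/
def Stable (F : IntermediateField ℚ (AlgebraicClosure ℚ)) (C : Set (F ≃ₐ[ℚ] F)) : Prop :=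
  ∀ σ ∈ C, ∀ τ : F ≃ₐ[ℚ] F, τ * σ * τ⁻¹ ∈ C

/-- finitely generated of positive rank -/
def PosRank (W : Subgroup ℚˣ) : Prop := W.FG ∧ ∃ w ∈ W, ¬ IsOfFinOrder w

/-- the index of `W` modulo `q` is at most `f q` for almost all `q`, for every `f` which tends to
infinity -/
def SmallIndex (W : Subgroup ℚˣ) : Prop :=
  ∀ f : ℕ → ℕ, Tendsto f atTop atTop → Tendsto (share fun q => f q < index W q) atTop (nhds 0)

/-- the index of `W` modulo `q` is bounded outside sets of primes of small upper density -/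
def BoundedIndex (W : Subgroup ℚˣ) : Prop :=
  ∀ ε : ℝ, 0 < ε → ∃ B : ℕ, ∀ᶠ x : ℕ in atTop, share (fun q => B < index W q) x ≤ ε

/-- Q1 for all data -/
def Q1 : Prop := ∀ (F : IntermediateField ℚ (AlgebraicClosure ℚ)) [NumberField F] [IsGalois ℚ F]
  (C : Set (F ≃ₐ[ℚ] F)) (W : Subgroup ℚˣ) (k : ℕ), Stable F C → PosRank W → 0 < k → Law F C W k

open Classical in
lemma share_eq (P : ℕ → Prop) : share P = M fun p => if P p then 1 else 0 := by
  funext x
  unfold share M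
  have h1 : Nat.card {q : ℕ // q ≤ x ∧ q.Prime} = Nat.primeCounting x := by
    rw [Nat.subtype_card ((Finset.range (x + 1)).filter Nat.Prime) (fun q => by
      rw [Finset.mem_filter, Finset.mem_range, Nat.lt_succ_iff])]
    rw [Nat.primeCounting, Nat.primeCounting', Nat.count_eq_card_filter_range]
  have h2 : Nat.card {q : ℕ // q ≤ x ∧ q.Prime ∧ P q} = #((pr x).filter P) := by
    rw [Nat.subtype_card]
    intro q
    rw [Finset.mem_filter, mem_pr, and_assoc]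
  rw [h1, h2, Finset.sum_boole]

/-- the same with any decision procedure -/
lemma share_M (P : ℕ → Prop) (i : DecidablePred P) (x : ℕ) :
    M (fun p => if P p then 1 else 0) x = share P x := by
  rw [share_eq]
  congr!

lemma law_iff (F : IntermediateField ℚ (AlgebraicClosure ℚ)) [NumberField F] [IsGalois ℚ F]
    (C : Set (F ≃ₐ[ℚ] F)) (W : Subgroup ℚˣ) (k : ℕ) : Law F C W k ↔ Law' F C W k := by
  unfold Law Law'
  rw [share_eq]
  rfl

lemma small_iff (W : Subgroup ℚˣ) : SmallIndex W ↔ Slow W := by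
  unfold SmallIndex Slow
  refine forall₂_congr fun f _ => ?_
  rw [share_eq]
  exact iff_of_eq (by congr!)

lemma bounded_iff (W : Subgroup ℚˣ) : BoundedIndex W ↔ Tight W := by
  unfold BoundedIndex Tight
  refine forall₂_congr fun ε _ => exists_congr fun B => ?_
  rw [share_eq]
  exact iff_of_eq (by congr!)

/-- the group generated by `a` -/
def gen (a : ℚˣ) : Subgroup ℚˣ := Subgroup.zpowers a

lemma gen_posRank {a : ℚˣ} (ha : (1 : ℚ) < a) : PosRank (gen a) := by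
  refine ⟨⟨{a}, by rw [Finset.coe_singleton]; exact (Subgroup.zpowers_eq_closure a).symm⟩,
    a, Subgroup.mem_zpowers a, fun h => ?_⟩
  rw [isOfFinOrder_iff_pow_eq_one] at h
  obtain ⟨n, hn, h1⟩ := h
  have h2 : (a : ℚ) ^ n = 1 := by
    rw [← Units.val_pow_eq_pow_val, h1, Units.val_one]
  have h3 := one_lt_pow₀ ha hn.ne'
  linarith

/-- every group of positive rank contains the squares of some `⟨a⟩`, `a > 1` -/
lemma exists_gen {V : Subgroup ℚˣ} (hV : ∃ w ∈ V, ¬ IsOfFinOrder w) :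
    ∃ a : ℚˣ, (1 : ℚ) < a ∧ ∀ w ∈ gen a, w ^ 2 ∈ V := by
  obtain ⟨v, hv, hv1⟩ := hV
  have hv0 : (v : ℚ) ≠ 0 := v.ne_zero
  have key : ∀ a : ℚˣ, a ^ 2 ∈ V → ∀ w ∈ gen a, w ^ 2 ∈ V := by
    intro a ha w hw
    obtain ⟨j, rfl⟩ := Subgroup.mem_zpowers_iff.1 hw
    have h1 : (a ^ j) ^ 2 = (a ^ 2) ^ j := by
      rw [← zpow_natCast, ← zpow_natCast, ← zpow_mul, ← zpow_mul, mul_comm]
    rw [h1]
    exact V.zpow_mem ha j
  have habs : |(v : ℚ)| ≠ 0 := abs_ne_zero.2 hv0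
  set b : ℚˣ := Units.mk0 |(v : ℚ)| habs with hb
  have hb2 : b ^ 2 = v ^ 2 := by
    apply Units.ext
    rw [Units.val_pow_eq_pow_val, Units.val_pow_eq_pow_val, hb, Units.val_mk0, sq_abs]
  have hbpos : 0 < (b : ℚ) := by
    rw [hb, Units.val_mk0]
    exact abs_pos.2 hv0
  rcases lt_trichotomy (b : ℚ) 1 with h | h | h
  · refine ⟨b⁻¹, ?_, key _ ?_⟩
    · rw [Units.val_inv_eq_inv_val]
      exact (one_lt_inv₀ hbpos).2 h
    · rw [inv_pow, hb2, ← inv_pow]
      exact V.pow_mem (V.inv_mem hv) 2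
  · exfalso
    apply hv1
    rw [isOfFinOrder_iff_pow_eq_one]
    refine ⟨2, by norm_num, ?_⟩
    rw [← hb2]
    apply Units.ext
    rw [Units.val_pow_eq_pow_val, h, one_pow, Units.val_one]
  · refine ⟨b, h, key _ ?_⟩
    rw [hb2]
    exact V.pow_mem hv 2

theorem result :
    -- 1. the law is inherited
    (∀ (I : Type) (F' : I → IntermediateField ℚ (AlgebraicClosure ℚ)) [∀ i, NumberField (F' i)]
      [∀ i, IsGalois ℚ (F' i)] (C' : ∀ i, Set (F' i ≃ₐ[ℚ] F' i)) (W : Subgroup ℚˣ) (k : ℕ),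
      (∀ i, Stable (F' i) (C' i)) → PosRank W → 0 < k → (∀ i, Law (F' i) (C' i) W k) →
      ∀ (F : IntermediateField ℚ (AlgebraicClosure ℚ)) [NumberField F] [IsGalois ℚ F]
        (C : Set (F ≃ₐ[ℚ] F)) (V : Subgroup ℚˣ) (k' m n : ℕ),
        Stable F C → V.FG → k' * m ∣ k → (∀ v ∈ V, v ^ m ∈ W) → 0 < n → (∀ w ∈ W, w ^ n ∈ V) →
        (∀ ε : ℝ, 0 < ε → ∃ J : Finset I, ∀ᶠ x : ℕ in atTop,
          share (fun q => Frob F C q ∧ ∀ i ∈ J, ¬ Frob (F' i) (C' i) q) x ≤ ε) →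
        Law F C V k') ∧
    -- the law over `ℚ` implies the law for all Frobenius conditions
    (∀ (W : Subgroup ℚˣ) (k : ℕ), PosRank W → 0 < k → LawQ W k →
      ∀ (F : IntermediateField ℚ (AlgebraicClosure ℚ)) [NumberField F] [IsGalois ℚ F]
        (C : Set (F ≃ₐ[ℚ] F)) (V : Subgroup ℚˣ) (k' m n : ℕ),
        Stable F C → V.FG → k' * m ∣ k → (∀ v ∈ V, v ^ m ∈ W) → 0 < n → (∀ w ∈ W, w ^ n ∈ V) →
        Law F C V k') ∧
    -- 2. equivalent statements for given `W`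
    (∀ W : Subgroup ℚˣ, PosRank W → List.TFAE [
      ∀ k₀ : ℕ, 0 < k₀ → ∃ k : ℕ, 0 < k ∧ k₀ ∣ k ∧ LawQ W k,
      BoundedIndex W,
      SmallIndex W,
      ∀ (F : IntermediateField ℚ (AlgebraicClosure ℚ)) [NumberField F] [IsGalois ℚ F]
        (C : Set (F ≃ₐ[ℚ] F)) (V : Subgroup ℚˣ) (k n : ℕ),
        Stable F C → V.FG → 0 < k → 0 < n → (∀ w ∈ W, w ^ n ∈ V) → Law F C V k]) ∧
    -- 3. equivalent statements for Q1
    List.TFAE [Q1,
      ∀ a : ℚˣ, (1 : ℚ) < a → ∀ k₀ : ℕ, 0 < k₀ → ∃ k : ℕ, 0 < k ∧ k₀ ∣ k ∧ LawQ (gen a) k,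
      ∀ a : ℚˣ, (1 : ℚ) < a → SmallIndex (gen a)] := by
  have posV : ∀ {V W : Subgroup ℚˣ} {n : ℕ}, PosRank W → 0 < n → (∀ w ∈ W, w ^ n ∈ V) →
      ∃ w ∈ V, ¬ IsOfFinOrder w := by
    intro V W n hW hn hnW
    obtain ⟨w, hw, hw1⟩ := hW.2
    refine ⟨w ^ n, hnW w hw, fun h => hw1 ?_⟩
    exact (isOfFinOrder_pow.1 h).resolve_right hn.ne'
  have key2 : ∀ W : Subgroup ℚˣ, PosRank W → List.TFAE [
      ∀ k₀ : ℕ, 0 < k₀ → ∃ k : ℕ, 0 < k ∧ k₀ ∣ k ∧ LawQ W k,
      BoundedIndex W,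
      SmallIndex W,
      ∀ (F : IntermediateField ℚ (AlgebraicClosure ℚ)) [NumberField F] [IsGalois ℚ F]
        (C : Set (F ≃ₐ[ℚ] F)) (V : Subgroup ℚˣ) (k n : ℕ),
        Stable F C → V.FG → 0 < k → 0 < n → (∀ w ∈ W, w ^ n ∈ V) → Law F C V k] := by
    intro W hW
    tfae_have 1 → 2 := by
      intro h
      rw [bounded_iff]
      refine law_tight hW.1 hW.2 fun k0 hk0 => ?_
      obtain ⟨k, hk, hkk, hl⟩ := h k0 (Nat.pos_of_ne_zero hk0)
      exact ⟨k, hk.ne', hkk, (law_iff _ _ _ _).1 hl⟩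
    tfae_have 2 → 3 := by
      intro h
      rw [small_iff]
      exact tight_slow ((bounded_iff W).1 h)
    tfae_have 3 → 4 := by
      intro h F _ _ C V k n hC hV hk hn hnW
      rw [law_iff]
      exact tight_law (slow_tight ((small_iff W).1 h)) hW.1 hC hV (posV hW hn hnW) hk.ne' hn hnW
    tfae_have 4 → 1 := by
      intro h k0 hk0
      refine ⟨k0, hk0, dvd_rfl, ?_⟩
      exact h _ Set.univ W k0 1 (fun σ _ τ => Set.mem_univ _) hW.1 hk0 one_pos
        fun w hw => by rwa [pow_one]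
    tfae_finish
  have key1 : ∀ (I : Type) (F' : I → IntermediateField ℚ (AlgebraicClosure ℚ))
      [∀ i, NumberField (F' i)]
      [∀ i, IsGalois ℚ (F' i)] (C' : ∀ i, Set (F' i ≃ₐ[ℚ] F' i)) (W : Subgroup ℚˣ) (k : ℕ),
      (∀ i, Stable (F' i) (C' i)) → PosRank W → 0 < k → (∀ i, Law (F' i) (C' i) W k) →
      ∀ (F : IntermediateField ℚ (AlgebraicClosure ℚ)) [NumberField F] [IsGalois ℚ F]
        (C : Set (F ≃ₐ[ℚ] F)) (V : Subgroup ℚˣ) (k' m n : ℕ),
        Stable F C → V.FG → k' * m ∣ k → (∀ v ∈ V, v ^ m ∈ W) → 0 < n → (∀ w ∈ W, w ^ n ∈ V) →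
        (∀ ε : ℝ, 0 < ε → ∃ J : Finset I, ∀ᶠ x : ℕ in atTop,
          share (fun q => Frob F C q ∧ ∀ i ∈ J, ¬ Frob (F' i) (C' i) q) x ≤ ε) →
        Law F C V k' := by
    intro I F' _ _ C' W k hC' hW hk hlaw F _ _ C V k' m n hC hV hkm hm hn hnW hcov
    rw [law_iff]
    refine master F' C' hC' hW.1 hW.2 hk.ne' (fun i => (law_iff _ _ _ _).1 (hlaw i)) hC hV
      (posV hW hn hnW) hkm hm hn hnW fun ε hε => ?_
    obtain ⟨J, hJ⟩ := hcov ε hε
    refine ⟨J, ?_⟩
    filter_upwards [hJ] with x hx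
    exact le_of_eq_of_le (share_M (fun p => GF F C p ∧ ∀ i ∈ J, ¬ GF (F' i) (C' i) p) _ x) hx
  refine ⟨key1, ?_, key2, ?_⟩
  · intro W k hW hk hlaw F _ _ C V k' m n hC hV hkm hm hn hnW
    refine key1 Unit (fun _ => ⊥) (fun _ => Set.univ) W k (fun _ σ _ τ => Set.mem_univ _) hW hk
      (fun _ => hlaw) F C V k' m n hC hV hkm hm hn hnW fun ε hε => ⟨{()}, ?_⟩
    filter_upwards [cover_bot F C ε hε] with x hx
    exact le_of_eq_of_le (share_M (fun p => GF F C p ∧ ∀ i ∈ ({()} : Finset Unit),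
      ¬ GF (⊥ : IntermediateField ℚ QA) Set.univ p) _ x).symm hx
  · tfae_have 1 → 2 := by
      intro h a ha k0 hk0
      exact ⟨k0, hk0, dvd_rfl, h _ Set.univ _ k0 (fun σ _ τ => Set.mem_univ _) (gen_posRank ha) hk0⟩
    tfae_have 2 → 3 := by
      intro h a ha
      exact ((key2 _ (gen_posRank ha)).out 0 2).1 (h a ha)
    tfae_have 3 → 1 := by
      intro h F _ _ C V k hC hV hk
      obtain ⟨a, ha, ha2⟩ := exists_gen hV.2
      have h1 := ((key2 _ (gen_posRank ha)).out 2 3).1 (h a ha)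
      exact h1 F C V k 2 hC hV.1 hk (by norm_num) ha2
    tfae_finish

end Pool.Agent.Results.MP_48b1c3_nt.ReductionToRationals
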